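import Pool.Agent.LeoD.TowStmts
import Pool.Agent.Helper24_LeoG.Apl

/-!
# Module WAP of squad LEOD: weak approximation at the primes above 3
-/

set_option autoImplicit false

open NumberField IsDedekindDomain Module Filter Topology
open Pool.Agent.Helper85_Leo Pool.Agent.LeoK Pool.Agent.LeoG Pool.Agent.LeoC Pool.Agent.LeoD
open Pool.Agent.Leo3 (Om InLoc FixF)
open Pool.Agent.LeoG.H24

namespace Pool.Agent.LeoD.H47

theorem wap : WapStmt := by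
  classical
  intro k _ _ ψ hψ A hA N
  have hfin : {P : HeightOneSpectrum (𝓞 k) | (3 : 𝓞 k) ∈ P.asIdeal}.Finite := by
    have h3 : (Ideal.span {(3 : 𝓞 k)}) ≠ ⊥ := by
      rw [Ne, Ideal.span_singleton_eq_bot]
      norm_num
    refine (Ideal.finite_factors h3).subset fun P hP => ?_
    exact (Ideal.dvd_iff_le).2 ((Ideal.span_singleton_le_iff_mem _).2 hP)
  have hl := fun P : {P : HeightOneSpectrum (𝓞 k) // (3 : 𝓞 k) ∈ P.asIdeal} =>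
    Pool.Agent.LeoK.H71.apx k (ψ P.1) (A P.1) (hA P.1 P.2) N
  choose x hx using hl
  have hφ : ∀ P : {P : HeightOneSpectrum (𝓞 k) // (3 : 𝓞 k) ∈ P.asIdeal},
      ∀ x : 𝓞 k, x ∈ P.1.asIdeal ↔ ‖ψ P.1 (x : k)‖ < 1 := fun P => hψ P.1 P.2
  have : Fintype {P : HeightOneSpectrum (𝓞 k) // (3 : 𝓞 k) ∈ P.asIdeal} := hfin.fintype
  obtain ⟨d, hd⟩ := IsLocalization.exist_integer_multiples (nonZeroDivisors (𝓞 k))
    Finset.univ x
  have hd0 : ((d : 𝓞 k) : k) ≠ 0 := by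
    simp
  have hX : ∀ P, ∃ X : 𝓞 k, (X : k) = ((d : 𝓞 k) : k) * x P := by
    intro P
    obtain ⟨X, hX⟩ := hd P (Finset.mem_univ _)
    exact ⟨X, hX⟩
  choose X hX using hX
  have hm : ∀ P : {P : HeightOneSpectrum (𝓞 k) // (3 : 𝓞 k) ∈ P.asIdeal},
      ∃ m : ℕ, (3 : ℝ)⁻¹ ^ m ≤ (3 : ℝ)⁻¹ ^ N * ‖ψ P.1 ((d : 𝓞 k) : k)‖ := by
    intro P
    refine exists_pow_le _ ?_
    have : 0 < ‖ψ P.1 ((d : 𝓞 k) : k)‖ := norm_pos_iff.2 ((map_ne_zero _).2 hd0)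
    positivity
  choose m hm using hm
  have he := fun P => small P.1 (ψ P.1) (hφ P) (m P)
  choose e he using he
  obtain ⟨y, hy⟩ := IsDedekindDomain.exists_forall_sub_mem_ideal
    (s := (Finset.univ : Finset {P : HeightOneSpectrum (𝓞 k) // (3 : 𝓞 k) ∈ P.asIdeal}))
    (fun P => P.1.asIdeal) e (fun P _ => P.1.prime)
    (fun P _ Q _ hPQ h => hPQ (Subtype.ext (HeightOneSpectrum.ext h)))
    (fun P => X P.1)
  refine ⟨(y : k) / ((d : 𝓞 k) : k), fun P hP => ?_⟩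
  have h1 := he ⟨P, hP⟩ _ (hy ⟨P, hP⟩ (Finset.mem_univ _))
  have h2 : (y : k) / ((d : 𝓞 k) : k) - x ⟨P, hP⟩ =
      ((y - X ⟨P, hP⟩ : 𝓞 k) : k) / ((d : 𝓞 k) : k) := by
    have h3 : ((y - X ⟨P, hP⟩ : 𝓞 k) : k) = (y : k) - ((d : 𝓞 k) : k) * x ⟨P, hP⟩ := by
      rw [← hX ⟨P, hP⟩]
      rfl
    rw [h3]
    field_simp
  have h4 : 0 < ‖ψ P ((d : 𝓞 k) : k)‖ := norm_pos_iff.2 ((map_ne_zero _).2 hd0)
  have h5 : ‖ψ P ((y : k) / ((d : 𝓞 k) : k) - x ⟨P, hP⟩)‖ ≤ (3 : ℝ)⁻¹ ^ N := by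
    rw [h2, map_div₀, norm_div, div_le_iff₀ h4]
    exact h1.trans (hm ⟨P, hP⟩)
  have h6 : ψ P ((y : k) / ((d : 𝓞 k) : k)) - A P =
      ψ P ((y : k) / ((d : 𝓞 k) : k) - x ⟨P, hP⟩) + (ψ P (x ⟨P, hP⟩) - A P) := by
    rw [map_sub]
    ring
  rw [h6]
  exact (IsUltrametricDist.norm_add_le_max _ _).trans (max_le h5 (hx ⟨P, hP⟩))

end Pool.Agent.LeoD.H47
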